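import Mathlib
import Pool.Agent.Q201.GenKer2

/-!
# Dense range and dense generalized kernel do not make `I + T` hypercyclic
-/

set_option autoImplicit false

namespace Pool.Agent.Results.MP_550623_an.NotHypercyclic

/-- For `𝕂 = ℝ` and for `𝕂 = ℂ` there are a separable Banach space `X ≠ 0` and a bounded operator `T`
with dense range and dense generalized kernel such that `I + T` is not hypercyclic; moreover two
non-empty open sets `U`, `V` satisfy `(I+T)^n(U) ∩ V = ∅` for every `n`, so `I + T` is not mixing. -/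
theorem result (𝕂 : Type) [RCLike 𝕂] :
    ∃ (X : Type) (_ : NormedAddCommGroup X) (_ : NormedSpace 𝕂 X) (_ : CompleteSpace X)
      (_ : TopologicalSpace.SeparableSpace X) (_ : Nontrivial X) (T : X →L[𝕂] X),
      Dense (Set.range T) ∧
      Dense {x : X | ∃ n : ℕ, 1 ≤ n ∧ (T ^ n) x = 0} ∧
      (¬ ∃ x : X, Dense (Set.range fun n : ℕ => ((1 + T) ^ n) x)) ∧
      (∃ U V : Set X, IsOpen U ∧ IsOpen V ∧ U.Nonempty ∧ V.Nonempty ∧
        ∀ n : ℕ, (⇑((1 + T) ^ n) '' U) ∩ V = ∅) := by
  refine ⟨Pool.Agent.Q201.GenKer.SX 𝕂, inferInstance, inferInstance, inferInstance, inferInstance,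
    inferInstance, Pool.Agent.Q201.GenKer.T 𝕂, Pool.Agent.Q201.GenKer.dense_range, ?_,
    Pool.Agent.Q201.GenKer.not_hypercyclic, Pool.Agent.Q201.GenKer.not_transitive⟩
  refine Pool.Agent.Q201.GenKer.dense_genker.mono ?_
  intro x hx
  obtain ⟨n, hn⟩ := Set.mem_iUnion.1 hx
  refine ⟨n + 1, by omega, ?_⟩
  have hn' : (Pool.Agent.Q201.GenKer.T 𝕂 ^ n) x = 0 := hn
  rw [pow_succ', mul_apply_eq_comp, hn', map_zero]

end Pool.Agent.Results.MP_550623_an.NotHypercyclic
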